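import Pool.Agent.Helper38.VF.Goals2

/-!
# VTF-ACT, VTF-RTR: translations on square summable functions
-/

set_option autoImplicit false

namespace Pool.Agent.Helper26.VF

open Pool.Agent.Helper38.VF

universe u

theorem memlp_perm {X : Type u} (σ : Equiv.Perm X) (f : L2 X) :
    Memℓp (fun a => f (σ a)) (2 : ENNReal) := by
  have h2 : (0 : ℝ) < (2 : ENNReal).toReal := by norm_num
  have hf := (memℓp_gen_iff h2).1 (lp.memℓp f)
  rw [memℓp_gen_iff h2]
  exact (Equiv.summable_iff σ).2 hf

/-- reindexing -/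
def per {X : Type u} (σ : Equiv.Perm X) (f : L2 X) : L2 X := ⟨fun a => f (σ a), memlp_perm σ f⟩

theorem per_apply {X : Type u} (σ : Equiv.Perm X) (f : L2 X) (a : X) : per σ f a = f (σ a) := rfl

theorem l2ext {X : Type u} {f g : L2 X} (h : ∀ a, f a = g a) : f = g := by
  apply Subtype.ext
  funext a
  exact h a

/-- left translations -/
@[instance_reducible]
def lact (A : Type u) [Group A] : DistribMulAction A (L2 A) where
  smul g f := per (Equiv.mulLeft g⁻¹) f
  one_smul f := l2ext fun a => by
    change f ((1 : A)⁻¹ * a) = f a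
    simp
  mul_smul g h f := l2ext fun a => by
    change f ((g * h)⁻¹ * a) = f (h⁻¹ * (g⁻¹ * a))
    rw [mul_inv_rev, mul_assoc]
  smul_zero g := rfl
  smul_add g f f' := rfl

theorem act : ActStmt.{u} := by
  intro A _
  exact ⟨lact A, fun g f a => rfl⟩

theorem norm_per {X : Type u} (σ : Equiv.Perm X) (f : L2 X) : ‖per σ f‖ = ‖f‖ := by
  have h2 : (0 : ℝ) < (2 : ENNReal).toReal := by norm_num
  rw [lp.norm_eq_tsum_rpow h2, lp.norm_eq_tsum_rpow h2]
  congr 1
  exact Equiv.tsum_eq σ fun a => ‖f a‖ ^ (2 : ENNReal).toReal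

/-- reindexing as a linear isometric equivalence -/
def perE {X : Type u} (σ : Equiv.Perm X) : L2 X ≃ₗᵢ[ℝ] L2 X where
  toFun := per σ
  invFun := per σ.symm
  left_inv f := l2ext fun a => by
    change f (σ (σ.symm a)) = f a
    rw [Equiv.apply_symm_apply]
  right_inv f := l2ext fun a => by
    change f (σ.symm (σ a)) = f a
    rw [Equiv.symm_apply_apply]
  map_add' f f' := rfl
  map_smul' r f := rfl
  norm_map' f := norm_per σ f

theorem rtr : RtrStmt.{u} := by
  intro A _ k h
  exact ⟨perE (Equiv.prodCongr (Equiv.refl _) (Equiv.mulRight h)), fun f z => rfl⟩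

end Pool.Agent.Helper26.VF
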