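import Pool.Agent.Helper38.VF.Goals2

/-!
# Project VTF: the induction (packet IN2)
-/

set_option autoImplicit false

namespace Pool.Agent.Helper26.VF

open Pool.Agent.Helper27.VF Pool.Agent.Helper38.VF

universe u

theorem inf_of_stg {A W : Type u} [Group A] [MulAction A W] {G G₀ : SimpleGraph W} {w : W}
    {p : Ultrafilter W} (h : Stg A G G₀ w p) : Infinite A := by
  by_contra hA
  rw [not_infinite_iff_finite] at hA
  obtain ⟨F, hF, hcov⟩ := h.fin
  have hW : (Set.univ : Set W).Finite := by
    refine ((Set.finite_univ (α := A)).image2 (fun a f => a • f) hF).subset ?_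
    intro x _
    obtain ⟨a, f, hf, rfl⟩ := hcov x
    exact ⟨a, Set.mem_univ a, f, hf, rfl⟩
  exact h.nonp _ hW Filter.univ_mem

theorem den_zero (A : Type u) [Group A] : Den A 0 := by
  refine ⟨Fin.elim0, ?_⟩
  intro M _ _ _ _ _
  have h : {e : Fin 0 → M | ∃ δ : A → M, IsDer δ ∧ ∀ i, e i = δ (Fin.elim0 i)} = Set.univ := by
    refine Set.eq_univ_of_forall fun e => ?_
    refine ⟨fun _ => 0, ?_, fun i => i.elim0⟩
    intro b b'
    simp
  have h2 := (dense_univ : Dense (Set.univ : Set (Fin 0 → M)))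
  rw [← h] at h2
  exact h2

theorem tf_sub {A : Type u} [Group A] (hA : TF A) (B : Subgroup A) : TF B := by
  intro b n hn h
  have h1 : (b : A) ^ n = 1 := by
    have := congrArg (fun z : B => (z : A)) h
    simpa using this
  exact Subtype.ext (hA b n hn h1)

theorem in2 (hD : DraStmt.{u}) (hE : DevStmt.{u}) (hS : DstStmt.{u}) (hT : TofStmt.{u}) :
    In2Stmt.{u} := by
  intro k
  induction k with
  | zero =>
    intro A W _ _ G G₀ w p _ _ _
    exact den_zero A
  | succ k ih =>
    intro A W _ _ G G₀ w p h htf hno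
    have := inf_of_stg h
    by_cases hcut : ∃ n : ℕ, ∃ c, IsCut G c ∧ (sep c).ncard = n ∧ ∃ a b : A, Dis p c a b
    · classical
      obtain ⟨c, hc, hcard, a, b, hab⟩ := Nat.find_spec hcut
      set m := Nat.find hcut with hm
      have hMn : Mn A G p m := by
        intro c' hc' a' b' hab'
        exact Nat.find_min' hcut ⟨c', hc', rfl, a', b', hab'⟩
      have hSS : (SS A G p m).Nonempty := ⟨c, hc, hcard, a, b, hab⟩
      obtain ⟨W', _, G', G₀', w', p', hS', hcon⟩ := hT A W G G₀ w p h m hMn htf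
      have hno' : ¬ Con (BB A G p m) G' p' := fun hc' => hno (hcon hc')
      have hden : Den (BB A G p m) k :=
        ih (BB A G p m) W' G' G₀' w' p' hS' (tf_sub htf (BB A G p m)) hno'
      obtain ⟨x, y, hy, hxy⟩ := hE A W G G₀ w p h m hMn htf hSS
      exact hS A (BB A G p m) x y hy
        (fun M _ _ f hf => hD A W G G₀ w p h m hMn htf M f hf) hxy k hden
    · exact absurd ⟨Set.univ, Set.infinite_univ, fun a _ b _ c hc hab =>
        hcut ⟨_, c, hc, rfl, a, b, hab⟩⟩ hno

end Pool.Agent.Helper26.VF
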