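import Pool.Agent.Helper38.VF.Goals2

/-!
# Project VTF: the bound for the rank (packet RK2)
-/

set_option autoImplicit false

namespace Pool.Agent.Helper26.VF

open Pool.Agent.Helper27.VF Pool.Agent.Helper38.VF

universe u

theorem rk2 (hA : ActStmt.{u}) (hL : L2dStmt.{u}) (hF : FoxStmt.{u}) (hK : KurStmt.{u})
    (hT : TrcStmt.{u}) : Rk2Stmt.{u} := by
  intro A _ n k a ha htf hden
  obtain ⟨x, hx⟩ := hden
  obtain ⟨inst, hleft⟩ := hA A
  let _ := inst
  have hd := hx (L2 A) (fun y hy => hL A hleft htf y hy)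
  obtain ⟨C, hE, hC⟩ := hF A hleft n k a x ha
  obtain ⟨Tn, hTn⟩ := hK A n
  obtain ⟨Tk, hTk⟩ := hK A k
  refine hT A n k C hE ?_
  have h1 : Dense ((fun e : Fin k → L2 A => Tk e) ''
      {e : Fin k → L2 A | ∃ δ : A → L2 A, IsDer δ ∧ ∀ i, e i = δ (x i)}) :=
    Tk.surjective.denseRange.dense_image Tk.continuous hd
  refine h1.mono ?_
  rintro _ ⟨e, ⟨δ, hδ, he⟩, rfl⟩
  refine ⟨Tn fun i => δ (a i), ?_⟩
  apply Subtype.ext
  funext z
  obtain ⟨i, b⟩ := z
  have h2 := hC δ hδ (Tn fun i => δ (a i)) (fun i b => hTn _ i b) i b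
  have h3 := hTk e i b
  change C (Tn fun i => δ (a i)) (i, b) = Tk e (i, b)
  rw [h2, h3, he i]

end Pool.Agent.Helper26.VF
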